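import Pool.Agent.Lib.helper57.Tauber

set_option autoImplicit false

namespace Pool.Agent.Lib.helper57

open MeasureTheory Set Filter Topology Complex

/-- The Wiener-Ikehara theorem (with the Chebyshev bound as a hypothesis). -/
theorem wiener_ikehara (a : ℕ → ℝ) (ha : ∀ n, 0 ≤ a n) (C : ℝ)
    (hC : ∀ n : ℕ, ∑ k ∈ Finset.Icc 1 n, a k ≤ C * n) (A : ℝ) (G : ℂ → ℂ)
    (hG : ContinuousOn G {s | 1 ≤ s.re})
    (hGe : ∀ s : ℂ, 1 < s.re → G s = LSeries (fun n => (a n : ℂ)) s - A / (s - 1)) :
    Tendsto (fun x : ℝ => (∑ k ∈ Finset.Icc 1 ⌊x⌋₊, a k) / x) atTop (𝓝 A) := by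
  let S : ℝ → ℝ := fun x => ∑ k ∈ Finset.Icc 1 ⌊x⌋₊, a k
  have hS0 : ∀ x, 0 ≤ S x := fun x => Finset.sum_nonneg (fun k _ => ha k)
  have hSm : Monotone S := fun x y hxy =>
    Finset.sum_le_sum_of_subset_of_nonneg
      (Finset.Icc_subset_Icc_right (Nat.floor_le_floor hxy)) (fun k _ _ => ha k)
  have hC0 : 0 ≤ C := by
    have := hC 1
    simp at this
    linarith [ha 1]
  let f : ℝ → ℝ := fun t => S (Real.exp t) / Real.exp t
  have hfm : Measurable f := by
    have := hSm.measurable
    fun_prop
  have hf0 : ∀ t, 0 ≤ f t := fun t => div_nonneg (hS0 _) (Real.exp_pos t).le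
  have hfM : ∀ t, f t ≤ C := fun t => by
    simp only [f]
    rw [div_le_iff₀ (Real.exp_pos t)]
    refine (hC _).trans ?_
    gcongr
    exact Nat.floor_le (Real.exp_pos t).le
  have hmono : Monotone (fun t => f t * Real.exp t) := by
    intro s t hst
    simp only [f]
    rw [div_mul_cancel₀ _ (Real.exp_pos s).ne', div_mul_cancel₀ _ (Real.exp_pos t).ne']
    exact hSm (Real.exp_le_exp.2 hst)
  have hO : (fun n : ℕ => ∑ k ∈ Finset.Icc 1 n, a k) =O[atTop] fun n : ℕ => (n : ℝ) ^ (1 : ℝ) := by
    refine Asymptotics.IsBigO.of_bound C (Eventually.of_forall fun n => ?_)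
    rw [Real.rpow_one, Real.norm_eq_abs, Real.norm_eq_abs,
      abs_of_nonneg (Finset.sum_nonneg (fun k _ => ha k)), abs_of_nonneg (Nat.cast_nonneg n)]
    exact hC n
  have hlim : Tendsto f atTop (𝓝 A) := by
    refine tauber f hfm C A hf0 hfM hmono (fun z => (G (1 + z) - A) / (1 + z)) ?_ ?_
    · refine ContinuousOn.div (ContinuousOn.sub ?_ continuousOn_const) (by fun_prop) ?_
      · refine hG.comp (by fun_prop) (fun z hz => ?_)
        simpa using hz
      · intro z hz h
        have h1 : (1 + z).re = 0 := by rw [h]; simp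
        have h2 : 0 ≤ z.re := hz
        simp at h1
        linarith
    · intro z hz
      have hz0 : z ≠ 0 := by rintro rfl; simp at hz
      have hz1 : 1 + z ≠ 0 := by
        intro h
        have h1 : (1 + z).re = 0 := by rw [h]; simp
        simp at h1
        linarith
      have h1 := LSeries_eq_mul_integral_of_nonneg a (r := 1) (s := 1 + z) zero_le_one
        (by simpa using hz) hO ha
      have himg : Real.exp '' Ioi 0 = Ioi 1 := by
        rw [Real.image_exp_Ioi, Real.exp_zero]
      rw [← himg, integral_image_eq_integral_abs_deriv_smul measurableSet_Ioi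
        (fun x _ => (Real.hasDerivAt_exp x).hasDerivWithinAt) Real.exp_injective.injOn] at h1
      have h2 : ∫ t in Ioi (0 : ℝ), (f t : ℂ) * cexp (-z * t)
          = LSeries (fun n => (a n : ℂ)) (1 + z) / (1 + z) := by
        rw [h1, mul_div_cancel_left₀ _ hz1]
        refine setIntegral_congr_fun measurableSet_Ioi (fun t _ => ?_)
        simp only [f, S, abs_of_pos (Real.exp_pos t), Complex.real_smul]
        push_cast
        have e1 : cexp t ^ (-(1 + z + 1)) = cexp (t * (-(1 + z + 1))) := by
          rw [Complex.cpow_def_of_ne_zero (Complex.exp_ne_zero _), Complex.log_exp]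
          · simp [Real.pi_pos]
          · simp [Real.pi_pos.le]
        rw [e1]
        have e2 : cexp (-z * t) = cexp t * cexp t * cexp (t * (-(1 + z + 1))) := by
          rw [← Complex.exp_add, ← Complex.exp_add]
          congr 1
          ring
        rw [e2]
        field_simp
      have h3 : ∫ t in Ioi (0 : ℝ), cexp (-z * t) = 1 / z := by
        rw [integral_exp_mul_complex_Ioi (by simpa using hz)]
        simp
      have hi1 : IntegrableOn (fun t : ℝ => cexp (-z * t)) (Ioi 0) :=
        integrableOn_exp_mul_complex_Ioi (by simpa using hz) 0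
      have hi2 : IntegrableOn (fun t : ℝ => (f t : ℂ) * cexp (-z * t)) (Ioi 0) := by
        refine Integrable.mono' (hi1.norm.const_mul C) ?_ (Eventually.of_forall fun t => ?_)
        · apply Measurable.aestronglyMeasurable
          fun_prop
        · rw [norm_mul, Complex.norm_real, Real.norm_eq_abs, abs_of_nonneg (hf0 t)]
          exact mul_le_mul_of_nonneg_right (hfM t) (norm_nonneg _)
      have h4 : ∀ t : ℝ, ((f t - A : ℝ) : ℂ) * cexp (-z * t)
          = (f t : ℂ) * cexp (-z * t) - A * cexp (-z * t) := fun t => by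
        push_cast; ring
      simp_rw [h4]
      rw [integral_sub hi2 (hi1.const_mul _), integral_const_mul, h2, h3,
        hGe (1 + z) (by simpa using hz)]
      have : 1 + z - 1 = z := by ring
      rw [this]
      field_simp
      ring
  refine (hlim.comp Real.tendsto_log_atTop).congr' ?_
  filter_upwards [eventually_gt_atTop 0] with x hx
  simp only [Function.comp, f, S, Real.exp_log hx]

open ArithmeticFunction ArithmeticFunction.vonMangoldt in
/-- The prime number theorem in arithmetic progressions, for the von Mangoldt function. -/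
theorem pnt_ap {q : ℕ} [NeZero q] {a : ZMod q} (ha : IsUnit a) :
    Tendsto (fun x : ℝ => (∑ k ∈ Finset.Icc 1 ⌊x⌋₊, residueClass a k) / x) atTop
      (𝓝 ((q.totient : ℝ)⁻¹)) := by
  refine wiener_ikehara _ (residueClass_nonneg a) (Real.log 4 + 4) (fun n => ?_) _
    (LFunctionResidueClassAux a) (continuousOn_LFunctionResidueClassAux a) (fun s hs => ?_)
  · have h1 := Chebyshev.psi_le_const_mul_self (x := n) (Nat.cast_nonneg n)
    refine le_trans ?_ h1
    rw [Chebyshev.psi, Nat.floor_natCast]
    exact Finset.sum_le_sum (fun k _ => residueClass_le a k)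
  · rw [eqOn_LFunctionResidueClassAux ha hs]
    push_cast
    rfl

/-- The prime number theorem for `ψ`. -/
theorem pnt_psi : Tendsto (fun x : ℝ => Chebyshev.psi x / x) atTop (𝓝 1) := by
  have h := pnt_ap (q := 1) (a := 1) isUnit_one
  simp only [Nat.totient_one, Nat.cast_one, inv_one] at h
  refine h.congr (fun x => ?_)
  congr 1
  refine Finset.sum_congr rfl (fun k _ => ?_)
  simp [ArithmeticFunction.vonMangoldt.residueClass, Set.indicator, Subsingleton.elim (k : ZMod 1) 1]

/-- The prime number theorem for `θ`. -/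
theorem pnt_theta : Tendsto (fun x : ℝ => Chebyshev.theta x / x) atTop (𝓝 1) := by
  obtain ⟨C, hC⟩ := Chebyshev.psi_sub_theta_le_mul_sqrt
  have h1 : Tendsto (fun x : ℝ => (Chebyshev.psi x - Chebyshev.theta x) / x) atTop (𝓝 0) := by
    have h2 : Tendsto (fun x : ℝ => C / √x) atTop (𝓝 0) :=
      Real.tendsto_sqrt_atTop.const_div_atTop C
    refine squeeze_zero' ?_ ?_ h2
    · filter_upwards [eventually_gt_atTop 0] with x hx
      exact div_nonneg (sub_nonneg.2 (Chebyshev.theta_le_psi x)) hx.le
    · filter_upwards [eventually_gt_atTop 0] with x hx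
      have h3 : 0 < √x := Real.sqrt_pos.2 hx
      rw [div_le_div_iff₀ hx h3]
      calc (Chebyshev.psi x - Chebyshev.theta x) * √x ≤ C * √x * √x := by
            gcongr
            exact hC x
        _ = C * x := by rw [mul_assoc, Real.mul_self_sqrt hx.le]
  have := pnt_psi.sub h1
  rw [sub_zero] at this
  refine this.congr (fun x => ?_)
  ring

/-- Every large `x` has a prime in `(x, c x]`, for every fixed `c > 1`. -/
theorem exists_prime_short {c : ℝ} (hc : 1 < c) :
    ∀ᶠ x : ℝ in atTop, ∃ p : ℕ, p.Prime ∧ x < p ∧ (p : ℝ) ≤ c * x := by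
  have h1 : Tendsto (fun x : ℝ => c * (Chebyshev.theta (c * x) / (c * x)) -
      Chebyshev.theta x / x) atTop (𝓝 (c * 1 - 1)) :=
    ((pnt_theta.comp (tendsto_id.const_mul_atTop (by linarith : 0 < c))).const_mul c).sub pnt_theta
  filter_upwards [h1.eventually (lt_mem_nhds (show 0 < c * 1 - 1 by linarith)),
    eventually_gt_atTop 0] with x hx hx0
  by_contra hcon
  push Not at hcon
  have h2 : Chebyshev.theta (c * x) ≤ Chebyshev.theta x := by
    unfold Chebyshev.theta
    refine Finset.sum_le_sum_of_subset_of_nonneg (fun p hp => ?_)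
      (fun p _ _ => Real.log_natCast_nonneg p)
    simp only [Finset.mem_filter, Finset.mem_Ioc] at hp ⊢
    refine ⟨⟨hp.1.1, ?_⟩, hp.2⟩
    rw [Nat.le_floor_iff hx0.le]
    by_contra h3
    have h4 := hcon p hp.2 (not_le.1 h3)
    have h5 := (Nat.le_floor_iff (by positivity)).1 hp.1.2
    linarith
  have h3 : c * (Chebyshev.theta (c * x) / (c * x)) = Chebyshev.theta (c * x) / x := by
    field_simp
  rw [h3, ← sub_div] at hx
  have := div_nonpos_of_nonpos_of_nonneg (sub_nonpos.2 h2) hx0.le
  linarith

/-- The prime number theorem for the prime counting function. -/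
theorem pnt_pi : Tendsto (fun x : ℝ => (Nat.primeCounting ⌊x⌋₊ : ℝ) / (x / Real.log x)) atTop
    (𝓝 1) := by
  have h1 := Chebyshev.primeCounting_sub_theta_div_log_isBigO
  have h2 : (fun x : ℝ => x / Real.log x ^ 2) =o[atTop] (fun x => x / Real.log x) := by
    refine Asymptotics.isLittleO_iff_tendsto' (by simp) |>.mpr ?_
    refine Tendsto.congr' (f₁ := fun x => (Real.log x)⁻¹) ?_
      Real.tendsto_log_atTop.inv_tendsto_atTop
    filter_upwards [eventually_gt_atTop 0] with x _
    field
  have h3 := (h1.trans_isLittleO h2).tendsto_div_nhds_zero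
  have h4 := h3.add pnt_theta
  rw [zero_add] at h4
  refine h4.congr' ?_
  filter_upwards [eventually_gt_atTop 1] with x hx
  have := Real.log_pos hx
  have : 0 < x := by linarith
  field

open ArithmeticFunction ArithmeticFunction.vonMangoldt in
/-- The prime number theorem in arithmetic progressions, for `θ`. -/
theorem pnt_ap_theta {q : ℕ} [NeZero q] {a : ZMod q} (ha : IsUnit a) :
    Tendsto (fun x : ℝ => (∑ p ∈ (Finset.Icc 1 ⌊x⌋₊).filter
      (fun p : ℕ => p.Prime ∧ (p : ZMod q) = a), Real.log p) / x) atTop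
      (𝓝 ((q.totient : ℝ)⁻¹)) := by
  have h1 : Tendsto (fun x : ℝ => (Chebyshev.psi x - Chebyshev.theta x) / x) atTop (𝓝 0) := by
    have := pnt_psi.sub pnt_theta
    rw [sub_self] at this
    exact this.congr (fun x => by ring)
  have h2 : Tendsto (fun x : ℝ => ((∑ k ∈ Finset.Icc 1 ⌊x⌋₊, residueClass a k) -
      ∑ p ∈ (Finset.Icc 1 ⌊x⌋₊).filter (fun p : ℕ => p.Prime ∧ (p : ZMod q) = a),
        Real.log p) / x) atTop (𝓝 0) := by
    have key : ∀ x : ℝ, (∑ k ∈ Finset.Icc 1 ⌊x⌋₊, residueClass a k) -
        ∑ p ∈ (Finset.Icc 1 ⌊x⌋₊).filter (fun p : ℕ => p.Prime ∧ (p : ZMod q) = a), Real.log p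
        = ∑ k ∈ Finset.Icc 1 ⌊x⌋₊, if k.Prime then 0 else residueClass a k := by
      intro x
      rw [Finset.sum_filter, ← Finset.sum_sub_distrib]
      refine Finset.sum_congr rfl (fun k _ => ?_)
      by_cases hk : k.Prime
      · by_cases hka : (k : ZMod q) = a
        · simp [residueClass, Set.indicator, hk, hka, vonMangoldt_apply_prime hk]
        · simp [residueClass, Set.indicator, hk, hka]
      · simp [hk]
    refine squeeze_zero' ?_ ?_ h1
    · filter_upwards [eventually_gt_atTop 0] with x hx
      rw [key]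
      refine div_nonneg (Finset.sum_nonneg fun k _ => ?_) hx.le
      split_ifs
      · exact le_rfl
      · exact residueClass_nonneg a k
    · filter_upwards [eventually_gt_atTop 0] with x hx
      rw [key, Chebyshev.psi_sub_theta_eq_sum_not_prime, Finset.sum_filter]
      gcongr
      refine Finset.sum_le_sum (fun k _ => ?_)
      by_cases hk : k.Prime
      · simp [hk]
      · simp only [hk, if_false, not_false_eq_true, if_true]
        exact residueClass_le a k
  have := (pnt_ap ha).sub h2
  rw [sub_zero] at this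
  exact this.congr (fun x => by ring)

end Pool.Agent.Lib.helper57
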