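import Mathlib

set_option autoImplicit false

namespace Pool.Agent.Lib.helper57

open MeasureTheory Set Filter Topology Complex

/-- The Fejer kernel. -/
noncomputable def fej (u : ℝ) : ℝ := if u = 0 then 1 else 2 * (1 - Real.cos u) / u ^ 2

theorem fej_nonneg (u : ℝ) : 0 ≤ fej u := by
  unfold fej
  split_ifs
  · norm_num
  · have := Real.cos_le_one u
    positivity

theorem fej_le_one (u : ℝ) : fej u ≤ 1 := by
  unfold fej
  split_ifs with h
  · norm_num
  · rw [div_le_one (by positivity)]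
    have := Real.one_sub_sq_div_two_le_cos (x := u)
    linarith

theorem fej_le_div {u : ℝ} (h : u ≠ 0) : fej u ≤ 4 / u ^ 2 := by
  unfold fej
  rw [if_neg h]
  have := Real.neg_one_le_cos u
  gcongr
  linarith

theorem fej_ge {u : ℝ} (h : |u| ≤ 1) : 4 / Real.pi ^ 2 ≤ fej u := by
  have hpi := Real.pi_gt_three
  unfold fej
  split_ifs with h0
  · rw [div_le_one (by positivity)]
    nlinarith
  · have h1 := Real.cos_le_one_sub_mul_cos_sq (x := u) (by linarith)
    rw [le_div_iff₀ (by positivity)]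
    have : 4 / Real.pi ^ 2 * u ^ 2 = 2 * (2 / Real.pi ^ 2 * u ^ 2) := by ring
    linarith

theorem fej_measurable : Measurable fej := by
  unfold fej
  refine Measurable.ite (measurableSet_singleton 0) measurable_const ?_
  fun_prop

theorem fej_le_inv (u : ℝ) : fej u ≤ 5 * (1 + u ^ 2)⁻¹ := by
  rw [← div_eq_mul_inv, le_div_iff₀ (by positivity)]
  by_cases h : u = 0
  · subst h; simp [fej]
  · have h1 := fej_le_one u
    have h2 := fej_le_div h
    rw [le_div_iff₀ (by positivity)] at h2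
    linarith

theorem fej_integrable : Integrable fej := by
  refine Integrable.mono' (integrable_inv_one_add_sq.const_mul 5)
    fej_measurable.aestronglyMeasurable (Eventually.of_forall fun u => ?_)
  rw [Real.norm_eq_abs, abs_of_nonneg (fej_nonneg u)]
  exact fej_le_inv u

theorem fej_half (c : ℂ) (hc : c ≠ 0) :
    ∫ τ in (0 : ℝ)..1, (1 - (τ : ℂ)) * cexp (c * τ) = (cexp c - 1 - c) / c ^ 2 := by
  have hd : ∀ τ ∈ uIcc (0 : ℝ) 1, HasDerivAt
      (fun τ : ℝ => (1 - (τ : ℂ)) * cexp (c * τ) / c + cexp (c * τ) / c ^ 2)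
      ((1 - (τ : ℂ)) * cexp (c * τ)) τ := by
    intro τ _
    have h1 : HasDerivAt (fun τ : ℝ => (τ : ℂ)) 1 τ := Complex.ofRealCLM.hasDerivAt
    have h2 : HasDerivAt (fun τ : ℝ => cexp (c * τ)) (cexp (c * τ) * (c * 1)) τ :=
      (h1.const_mul c).cexp
    have h3 := (((h1.const_sub 1).mul h2).div_const c).add (h2.div_const (c ^ 2))
    refine h3.congr_deriv ?_
    field_simp
    ring
  rw [intervalIntegral.integral_eq_sub_of_hasDerivAt hd
    (Continuous.intervalIntegrable (by fun_prop) _ _)]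
  simp
  field_simp
  ring

theorem fej_eq (u : ℝ) :
    (fej u : ℂ) = ∫ τ in Ioc (-1 : ℝ) 1, ((1 - |τ| : ℝ) : ℂ) * cexp (I * τ * u) := by
  rw [← intervalIntegral.integral_of_le (by norm_num)]
  have hcont : Continuous fun τ : ℝ => ((1 - |τ| : ℝ) : ℂ) * cexp (I * τ * u) := by fun_prop
  rw [← intervalIntegral.integral_add_adjacent_intervals (b := 0)
    (hcont.intervalIntegrable _ _) (hcont.intervalIntegrable _ _)]
  have e1 : ∫ τ in (0 : ℝ)..1, ((1 - |τ| : ℝ) : ℂ) * cexp (I * τ * u)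
      = ∫ τ in (0 : ℝ)..1, (1 - (τ : ℂ)) * cexp ((I * u) * τ) := by
    refine intervalIntegral.integral_congr (fun τ hτ => ?_)
    rw [uIcc_of_le (by norm_num)] at hτ
    simp only [abs_of_nonneg hτ.1]
    push_cast
    ring_nf
  have e2 : ∫ τ in (-1 : ℝ)..0, ((1 - |τ| : ℝ) : ℂ) * cexp (I * τ * u)
      = ∫ τ in (0 : ℝ)..1, (1 - (τ : ℂ)) * cexp ((-(I * u)) * τ) := by
    have := intervalIntegral.integral_comp_neg (a := (0 : ℝ)) (b := 1)
      (fun τ : ℝ => ((1 - |τ| : ℝ) : ℂ) * cexp (I * τ * u))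
    rw [neg_zero] at this
    rw [← this]
    refine intervalIntegral.integral_congr (fun τ hτ => ?_)
    rw [uIcc_of_le (by norm_num)] at hτ
    simp only [abs_neg, abs_of_nonneg hτ.1]
    push_cast
    ring_nf
  rw [e1, e2]
  by_cases h : u = 0
  · subst h
    have : ∫ τ in (0 : ℝ)..1, (1 - (τ : ℂ)) = 1 / 2 := by
      have h1 : ∫ τ in (0 : ℝ)..1, (1 - (τ : ℂ)) = ((∫ τ in (0 : ℝ)..1, (1 - τ) : ℝ) : ℂ) := by
        rw [← intervalIntegral.integral_ofReal]
        simp
      rw [h1, intervalIntegral.integral_sub (by simp) (by simp)]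
      simp
      norm_num
    simp [fej, this]
    norm_num
  · have hu : (u : ℂ) ≠ 0 := by exact_mod_cast h
    rw [fej_half _ (by simp [hu]), fej_half _ (by simp [hu])]
    unfold fej
    rw [if_neg h]
    push_cast
    rw [Complex.cos]
    have h2 : (I * u) ^ 2 = - u ^ 2 := by rw [mul_pow, I_sq]; ring
    rw [neg_sq, h2]
    field_simp
    ring_nf

end Pool.Agent.Lib.helper57
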