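import Pool.Agent.Lib.helper57.Fejer

set_option autoImplicit false

namespace Pool.Agent.Lib.helper57

open MeasureTheory Set Filter Topology Complex

theorem fej_scaled_integrable {l : ℝ} (hl : 0 < l) (T : ℝ) :
    Integrable (fun t => fej (l * (T - t))) :=
  (fej_integrable.comp_mul_left' hl.ne').comp_sub_left T

theorem step1 (h : ℝ → ℝ) (hm : Measurable h) (M : ℝ) (hM : ∀ t, |h t| ≤ M) (H : ℂ → ℂ)
    (hH : ∀ z : ℂ, 0 < z.re → ∫ t in Ioi (0 : ℝ), (h t : ℂ) * cexp (-z * t) = H z)
    (l T ε : ℝ) (hε : 0 < ε) :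
    ∫ t in Ioi (0 : ℝ), (h t : ℂ) * cexp (-ε * t) * (fej (l * (T - t)) : ℂ) =
      ∫ τ in Ioc (-1 : ℝ) 1, ((1 - |τ| : ℝ) : ℂ) * cexp (I * τ * (l * T)) *
        H (ε + I * (l * τ)) := by
  let F : ℝ → ℝ → ℂ := fun t τ =>
    (h t : ℂ) * cexp (-ε * t) * (((1 - |τ| : ℝ) : ℂ) * cexp (I * τ * ((l * (T - t) : ℝ) : ℂ)))
  have hint : Integrable (Function.uncurry F)
      ((volume.restrict (Ioi (0 : ℝ))).prod (volume.restrict (Ioc (-1 : ℝ) 1))) := by
    have h1 : Integrable (fun t : ℝ => M * Real.exp (-ε * t)) (volume.restrict (Ioi (0 : ℝ))) :=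
      (integrableOn_exp_mul_Ioi (by linarith : -ε < 0) 0).const_mul M
    have h2 : Integrable (fun τ : ℝ => |1 - abs τ|) (volume.restrict (Ioc (-1 : ℝ) 1)) :=
      (Continuous.integrableOn_Icc (by fun_prop)).mono_set Ioc_subset_Icc_self
    refine Integrable.mono' (h1.mul_prod h2) ?_ (Eventually.of_forall fun p => ?_)
    · apply Measurable.aestronglyMeasurable
      unfold Function.uncurry F
      fun_prop
    · obtain ⟨t, τ⟩ := p
      simp only [Function.uncurry, F, norm_mul, Complex.norm_exp, Complex.norm_real,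
        Real.norm_eq_abs]
      have e1 : (-(ε : ℂ) * t).re = -ε * t := by simp
      have e2 : (I * τ * ((l * (T - t) : ℝ) : ℂ)).re = 0 := by simp
      rw [e1, e2, Real.exp_zero, mul_one]
      gcongr
      exact hM t
  have h1 : ∀ t, (h t : ℂ) * cexp (-ε * t) * (fej (l * (T - t)) : ℂ)
      = ∫ τ in Ioc (-1 : ℝ) 1, F t τ := by
    intro t
    rw [fej_eq, ← integral_const_mul]
  simp_rw [h1]
  rw [integral_integral_swap hint]
  refine setIntegral_congr_fun measurableSet_Ioc (fun τ _ => ?_)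
  rw [← hH _ (by simpa using hε), ← integral_const_mul]
  refine setIntegral_congr_fun measurableSet_Ioi (fun t _ => ?_)
  simp only [F]
  have : cexp (-ε * t) * cexp (I * τ * ((l * (T - t) : ℝ) : ℂ))
      = cexp (I * τ * (l * T)) * cexp (-(ε + I * (l * τ)) * t) := by
    rw [← Complex.exp_add, ← Complex.exp_add]
    congr 1
    push_cast
    ring
  linear_combination (h t : ℂ) * ((1 - |τ| : ℝ) : ℂ) * this

theorem step2 (h : ℝ → ℝ) (hm : Measurable h) (M : ℝ) (hM : ∀ t, |h t| ≤ M) (H : ℂ → ℂ)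
    (hc : ContinuousOn H {z | 0 ≤ z.re})
    (hH : ∀ z : ℂ, 0 < z.re → ∫ t in Ioi (0 : ℝ), (h t : ℂ) * cexp (-z * t) = H z)
    (l T : ℝ) (hl : 0 < l) :
    ∫ t in Ioi (0 : ℝ), (h t : ℂ) * (fej (l * (T - t)) : ℂ) =
      ∫ τ in Ioc (-1 : ℝ) 1, ((1 - |τ| : ℝ) : ℂ) * cexp (I * τ * (l * T)) *
        H (I * (l * τ)) := by
  let e : ℕ → ℝ := fun n => 1 / ((n : ℝ) + 1)
  have he : ∀ n, 0 < e n := fun n => by positivity
  have he1 : ∀ n, e n ≤ 1 := fun n => by
    simp only [e]
    rw [div_le_one (by positivity)]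
    have : (0 : ℝ) ≤ n := by positivity
    linarith
  have het : Tendsto e atTop (𝓝 0) := tendsto_one_div_add_atTop_nhds_zero_nat
  have hetc : Tendsto (fun n => (e n : ℂ)) atTop (𝓝 0) := by
    have := (Complex.continuous_ofReal.tendsto 0).comp het
    simpa [Function.comp_def] using this
  have hL : Tendsto (fun n => ∫ t in Ioi (0 : ℝ),
      (h t : ℂ) * cexp (-(e n) * t) * (fej (l * (T - t)) : ℂ)) atTop
      (𝓝 (∫ t in Ioi (0 : ℝ), (h t : ℂ) * (fej (l * (T - t)) : ℂ))) := by
    refine tendsto_integral_of_dominated_convergence (fun t => M * fej (l * (T - t)))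
      (fun n => ?_) ((fej_scaled_integrable hl T).const_mul M).integrableOn (fun n => ?_)
      (Eventually.of_forall fun t => ?_)
    · apply Measurable.aestronglyMeasurable
      have := fej_measurable
      fun_prop
    · rw [ae_restrict_iff' measurableSet_Ioi]
      refine Eventually.of_forall fun t ht => ?_
      simp only [norm_mul, Complex.norm_exp, Complex.norm_real, Real.norm_eq_abs]
      have e1 : (-(e n : ℂ) * t).re = -(e n) * t := by simp
      rw [e1, abs_of_nonneg (fej_nonneg _)]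
      have h1 : Real.exp (-(e n) * t) ≤ 1 := by
        rw [Real.exp_le_one_iff]
        have := he n
        have : 0 < t := ht
        nlinarith
      have h2 := hM t
      have h3 := fej_nonneg (l * (T - t))
      have h4 := abs_nonneg (h t)
      calc |h t| * Real.exp (-(e n) * t) * fej (l * (T - t)) ≤ M * 1 * fej (l * (T - t)) := by
            gcongr
            linarith
        _ = _ := by ring
    · have h1 : Tendsto (fun n => cexp (-(e n) * t)) atTop (𝓝 1) := by
        have := (Complex.continuous_exp.tendsto _).comp (hetc.neg.mul_const (t : ℂ))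
        simpa [Function.comp_def] using this
      have := (h1.const_mul (h t : ℂ)).mul_const (fej (l * (T - t)) : ℂ)
      simpa using this
  have hK : IsCompact (Icc (0 : ℝ) 1 ×ℂ Icc (-l) l) := isCompact_Icc.reProdIm isCompact_Icc
  have hKsub : (Icc (0 : ℝ) 1 ×ℂ Icc (-l) l) ⊆ {z : ℂ | 0 ≤ z.re} := fun z hz => hz.1.1
  obtain ⟨C, hC⟩ := hK.exists_bound_of_continuousOn (hc.mono hKsub)
  have hR : Tendsto (fun n => ∫ τ in Ioc (-1 : ℝ) 1,
      ((1 - |τ| : ℝ) : ℂ) * cexp (I * τ * (l * T)) * H (e n + I * (l * τ))) atTop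
      (𝓝 (∫ τ in Ioc (-1 : ℝ) 1, ((1 - |τ| : ℝ) : ℂ) * cexp (I * τ * (l * T)) *
        H (I * (l * τ)))) := by
    refine tendsto_integral_of_dominated_convergence (fun _ => C)
      (fun n => ?_) (integrable_const C) (fun n => ?_) (Eventually.of_forall fun τ => ?_)
    · apply Continuous.aestronglyMeasurable
      refine Continuous.mul (by fun_prop) ?_
      refine hc.comp_continuous (by fun_prop) (fun τ => ?_)
      simpa using (he n).le
    · rw [ae_restrict_iff' measurableSet_Ioc]
      refine Eventually.of_forall fun τ hτ => ?_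
      simp only [norm_mul, Complex.norm_exp, Complex.norm_real, Real.norm_eq_abs]
      have e2 : (I * τ * (l * T : ℂ)).re = 0 := by simp
      rw [e2, Real.exp_zero, mul_one]
      have h1 : |τ| ≤ 1 := abs_le.2 ⟨hτ.1.le, hτ.2⟩
      have h2 : |1 - abs τ| ≤ 1 := by
        rw [abs_le]
        have := abs_nonneg τ
        constructor <;> linarith
      have h3 : ‖H (e n + I * (l * τ))‖ ≤ C := by
        apply hC
        refine ⟨?_, ?_⟩
        · simpa using ⟨(he n).le, he1 n⟩
        · have := hτ.1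
          have := hτ.2
          simp only [mem_preimage, add_im, ofReal_im, mul_im, I_re, mul_re, ofReal_re, I_im,
            mem_Icc]
          constructor <;> nlinarith
      calc |1 - abs τ| * ‖H (e n + I * (l * τ))‖ ≤ 1 * C := by gcongr
        _ = C := one_mul C
    · refine Tendsto.const_mul _ ?_
      have h1 : Tendsto (fun n => (e n : ℂ) + I * (l * τ)) atTop
          (𝓝[{z : ℂ | 0 ≤ z.re}] (I * (l * τ))) := by
        rw [tendsto_nhdsWithin_iff]
        refine ⟨by simpa using hetc.add_const (I * (l * τ)), Eventually.of_forall fun n => ?_⟩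
        simpa using (he n).le
      exact (hc _ (by simp)).tendsto.comp h1
  refine tendsto_nhds_unique hL ?_
  simp_rw [fun n => step1 h hm M hM H hH l T (e n) (he n)]
  exact hR

theorem step3 (h : ℝ → ℝ) (hm : Measurable h) (M : ℝ) (hM : ∀ t, |h t| ≤ M) (H : ℂ → ℂ)
    (hc : ContinuousOn H {z | 0 ≤ z.re})
    (hH : ∀ z : ℂ, 0 < z.re → ∫ t in Ioi (0 : ℝ), (h t : ℂ) * cexp (-z * t) = H z)
    (l : ℝ) (hl : 0 < l) :
    Tendsto (fun T => ∫ t in Ioi (0 : ℝ), h t * fej (l * (T - t))) atTop (𝓝 0) := by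
  have hRL := Real.tendsto_integral_exp_smul_cocompact
    (indicator (Ioc (-1 : ℝ) 1) (fun τ : ℝ => ((1 - |τ| : ℝ) : ℂ) * H (I * (l * τ))))
  have hw : Tendsto (fun T : ℝ => -(l / (2 * Real.pi) * T)) atTop (cocompact ℝ) := by
    refine Tendsto.mono_right ?_ atBot_le_cocompact
    exact tendsto_neg_atTop_atBot.comp (tendsto_id.const_mul_atTop (by positivity))
  have h1 := hRL.comp hw
  have h2 : Tendsto (fun T : ℝ => ((∫ t in Ioi (0 : ℝ), h t * fej (l * (T - t)) : ℝ) : ℂ))
      atTop (𝓝 0) := by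
    refine h1.congr (fun T => ?_)
    rw [← integral_complex_ofReal]
    simp only [Function.comp]
    have := step2 h hm M hM H hc hH l T hl
    simp_rw [Complex.ofReal_mul (h _)]
    rw [this, ← integral_indicator measurableSet_Ioc]
    refine integral_congr_ae (Eventually.of_forall fun τ => ?_)
    by_cases hτ : τ ∈ Ioc (-1 : ℝ) 1
    · simp only [indicator_of_mem hτ, Circle.smul_def, Real.fourierChar_apply, smul_eq_mul]
      have hpi : (Real.pi : ℂ) ≠ 0 := by exact_mod_cast Real.pi_ne_zero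
      have : ((2 * Real.pi * -(τ * -(l / (2 * Real.pi) * T)) : ℝ) : ℂ) * I = I * τ * (l * T) := by
        push_cast
        field_simp
      rw [this]
      ring
    · simp [indicator_of_notMem hτ]
  have := (Complex.continuous_re.tendsto 0).comp h2
  simpa [Function.comp_def] using this

theorem fej_near {l δ : ℝ} (hl : 0 < l) (hδ : 1 / l ≤ δ) :
    8 / Real.pi ^ 2 / l ≤ ∫ u in Icc (-δ) δ, fej (l * u) := by
  have hint : Integrable (fun u => fej (l * u)) := fej_integrable.comp_mul_left' hl.ne'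
  have hl' : 0 < 1 / l := by positivity
  calc 8 / Real.pi ^ 2 / l = ∫ _ in Icc (-(1 / l)) (1 / l), 4 / Real.pi ^ 2 := by
        rw [setIntegral_const, Real.volume_real_Icc_of_le (by linarith), smul_eq_mul]
        field_simp
        ring
    _ ≤ ∫ u in Icc (-(1 / l)) (1 / l), fej (l * u) := by
        refine setIntegral_mono_on (by simp) hint.integrableOn measurableSet_Icc
          (fun u hu => fej_ge ?_)
        rw [abs_mul, abs_of_pos hl, ← le_div_iff₀' hl]
        exact abs_le.2 hu
    _ ≤ ∫ u in Icc (-δ) δ, fej (l * u) := by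
        refine setIntegral_mono_set hint.integrableOn
          (Eventually.of_forall fun u => fej_nonneg _) (Eventually.of_forall ?_)
        exact Icc_subset_Icc (by linarith) hδ

theorem fej_far {l δ : ℝ} (hl : 0 < l) (hδ : 0 < δ) :
    ∫ u in (Icc (-δ) δ)ᶜ, fej (l * u) ≤ 4 * (1 + 1 / δ ^ 2) * Real.pi / l ^ 2 := by
  have hint : Integrable (fun u => fej (l * u)) := fej_integrable.comp_mul_left' hl.ne'
  have hint2 := integrable_inv_one_add_sq.const_mul (4 * (1 + 1 / δ ^ 2) / l ^ 2)
  calc ∫ u in (Icc (-δ) δ)ᶜ, fej (l * u)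
      ≤ ∫ u in (Icc (-δ) δ)ᶜ, 4 * (1 + 1 / δ ^ 2) / l ^ 2 * (1 + u ^ 2)⁻¹ := by
        refine setIntegral_mono_on hint.integrableOn hint2.integrableOn measurableSet_Icc.compl
          (fun u hu => ?_)
        have h1 : δ < |u| := by
          by_contra hcon
          exact hu (abs_le.1 (not_lt.1 hcon))
        have h2 : u ≠ 0 := by
          rintro rfl
          simp at h1
          linarith
        have h3 : δ ^ 2 ≤ u ^ 2 := by
          rw [← sq_abs u]
          gcongr
        refine (fej_le_div (mul_ne_zero hl.ne' h2)).trans ?_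
        have h4 : 1 / u ^ 2 ≤ (1 + 1 / δ ^ 2) * (1 + u ^ 2)⁻¹ := by
          rw [← div_eq_mul_inv, le_div_iff₀ (by positivity)]
          have h5 : 1 / u ^ 2 ≤ 1 / δ ^ 2 := by gcongr
          have h6 : 1 / u ^ 2 * (1 + u ^ 2) = 1 / u ^ 2 + 1 := by field_simp
          linarith
        calc 4 / (l * u) ^ 2 = 4 / l ^ 2 * (1 / u ^ 2) := by field_simp
          _ ≤ 4 / l ^ 2 * ((1 + 1 / δ ^ 2) * (1 + u ^ 2)⁻¹) := by gcongr
          _ = _ := by ring
    _ ≤ ∫ u, 4 * (1 + 1 / δ ^ 2) / l ^ 2 * (1 + u ^ 2)⁻¹ :=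
        setIntegral_le_integral hint2 (Eventually.of_forall fun u => by positivity)
    _ = _ := by
        rw [integral_const_mul, integral_univ_inv_one_add_sq]
        ring

theorem one_sided (g : ℝ → ℝ) (hm : Measurable g) (M : ℝ) (hM : ∀ t, |g t| ≤ M)
    (hJ : ∀ l : ℝ, 0 < l →
      Tendsto (fun T => ∫ t in Ioi (0 : ℝ), g t * fej (l * (T - t))) atTop (𝓝 0))
    {δ η : ℝ} (hδ : 0 < δ) (hη : 0 < η) :
    ∀ᶠ T in atTop, ∀ c : ℝ, (∀ t ∈ Icc (T - δ) (T + δ), c ≤ g t) → c ≤ η := by
  have hM0 : 0 ≤ M := (abs_nonneg _).trans (hM 0)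
  have hpi := Real.pi_pos
  obtain ⟨l, hl1, hl2⟩ : ∃ l : ℝ, 1 / δ ≤ l ∧
      M * (4 * (1 + 1 / δ ^ 2) * Real.pi) / (η / 2 * (8 / Real.pi ^ 2)) ≤ l :=
    ⟨max _ _, le_max_left _ _, le_max_right _ _⟩
  have hl : 0 < l := lt_of_lt_of_le (by positivity) hl1
  have hl1' : 1 / l ≤ δ := by
    rw [div_le_iff₀ hl]
    rw [div_le_iff₀ hδ] at hl1
    linarith
  have hint : Integrable (fun u => fej (l * u)) := fej_integrable.comp_mul_left' hl.ne'
  set W := ∫ u in Icc (-δ) δ, fej (l * u) with hW
  set F := ∫ u in (Icc (-δ) δ)ᶜ, fej (l * u) with hF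
  have hW1 : 8 / Real.pi ^ 2 / l ≤ W := fej_near hl hl1'
  have hW0 : 0 < W := lt_of_lt_of_le (by positivity) hW1
  have hF1 : M * F ≤ η / 2 * W := by
    have h1 := fej_far hl hδ
    rw [div_le_iff₀ (by positivity)] at hl2
    calc M * F ≤ M * (4 * (1 + 1 / δ ^ 2) * Real.pi / l ^ 2) := by gcongr
      _ = M * (4 * (1 + 1 / δ ^ 2) * Real.pi) / l ^ 2 := by ring
      _ ≤ l * (η / 2 * (8 / Real.pi ^ 2)) / l ^ 2 := by gcongr
      _ = η / 2 * (8 / Real.pi ^ 2 / l) := by field_simp
      _ ≤ η / 2 * W := by gcongr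
  have hev := (hJ l hl).eventually (gt_mem_nhds (show (0 : ℝ) < η / 2 * W by positivity))
  filter_upwards [hev, eventually_gt_atTop δ] with T hT hTδ c hc
  have e1 : ∫ t in Ioi (0 : ℝ), g t * fej (l * (T - t))
      = ∫ u, indicator (Ioi (0 : ℝ)) g (T - u) * fej (l * u) := by
    rw [← integral_indicator measurableSet_Ioi, ← integral_sub_left_eq_self _ _ T]
    refine integral_congr_ae (Eventually.of_forall fun u => ?_)
    by_cases hu : T - u ∈ Ioi (0 : ℝ)
    · simp [indicator_of_mem hu]
    · simp [indicator_of_notMem hu]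
  have hb : ∀ t, |indicator (Ioi (0 : ℝ)) g t| ≤ M := by
    intro t
    by_cases ht : t ∈ Ioi (0 : ℝ)
    · rw [indicator_of_mem ht]; exact hM t
    · rw [indicator_of_notMem ht]; simpa using hM0
  have hint2 : Integrable (fun u => indicator (Ioi (0 : ℝ)) g (T - u) * fej (l * u)) := by
    refine Integrable.mono' (hint.const_mul M) ?_ (Eventually.of_forall fun u => ?_)
    · apply Measurable.aestronglyMeasurable
      have h1 := hm.indicator (measurableSet_Ioi (a := (0 : ℝ)))
      have h2 := fej_measurable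
      fun_prop
    · rw [Real.norm_eq_abs, abs_mul, abs_of_nonneg (fej_nonneg _)]
      exact mul_le_mul_of_nonneg_right (hb _) (fej_nonneg _)
  rw [e1, ← integral_add_compl (measurableSet_Icc (a := -δ) (b := δ)) hint2] at hT
  have h1 : c * W ≤ ∫ u in Icc (-δ) δ, indicator (Ioi (0 : ℝ)) g (T - u) * fej (l * u) := by
    rw [hW, ← integral_const_mul]
    refine setIntegral_mono_on (hint.const_mul c).integrableOn hint2.integrableOn
      measurableSet_Icc (fun u hu => ?_)
    have h2 : T - u ∈ Ioi (0 : ℝ) := by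
      have := hu.2
      simp only [mem_Ioi]
      linarith
    rw [indicator_of_mem h2]
    refine mul_le_mul_of_nonneg_right (hc _ ⟨?_, ?_⟩) (fej_nonneg _)
    · linarith [hu.2]
    · linarith [hu.1]
  have h2 : -M * F ≤ ∫ u in (Icc (-δ) δ)ᶜ, indicator (Ioi (0 : ℝ)) g (T - u) * fej (l * u) := by
    rw [hF, ← integral_const_mul]
    refine setIntegral_mono_on (hint.const_mul _).integrableOn hint2.integrableOn
      measurableSet_Icc.compl (fun u _ => ?_)
    exact mul_le_mul_of_nonneg_right (abs_le.1 (hb _)).1 (fej_nonneg _)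
  have h3 : c * W ≤ η * W := by linarith
  exact le_of_mul_le_mul_right h3 hW0

/-- Tauberian theorem for bounded slowly decreasing functions. -/
theorem tauber (f : ℝ → ℝ) (hm : Measurable f) (M A : ℝ) (h0 : ∀ t, 0 ≤ f t) (hM : ∀ t, f t ≤ M)
    (hmono : Monotone (fun t => f t * Real.exp t)) (H : ℂ → ℂ)
    (hc : ContinuousOn H {z | 0 ≤ z.re})
    (hH : ∀ z : ℂ, 0 < z.re → ∫ t in Ioi (0 : ℝ), ((f t - A : ℝ) : ℂ) * cexp (-z * t) = H z) :
    Tendsto f atTop (𝓝 A) := by
  have hb : ∀ t, |f t - A| ≤ M + |A| := fun t => by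
    have := abs_sub (f t) A
    rw [abs_of_nonneg (h0 t)] at this
    linarith [hM t]
  have hJ := fun l hl => step3 (fun t => f t - A) (by fun_prop) _ hb H hc hH l hl
  have hJ' : ∀ l : ℝ, 0 < l →
      Tendsto (fun T => ∫ t in Ioi (0 : ℝ), (-(f t - A)) * fej (l * (T - t))) atTop (𝓝 0) := by
    intro l hl
    have := (hJ l hl).neg
    simp_rw [← integral_neg, ← neg_mul, neg_zero] at this
    exact this
  have hslow : ∀ s t δ : ℝ, s ≤ t → t ≤ s + 2 * δ → f s * Real.exp (-(2 * δ)) ≤ f t := by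
    intro s t δ hst hts
    have h1 : f s * Real.exp s ≤ f t * Real.exp t := hmono hst
    have h2 : Real.exp (-(2 * δ)) ≤ Real.exp (s - t) := Real.exp_le_exp.2 (by linarith)
    calc f s * Real.exp (-(2 * δ)) ≤ f s * Real.exp (s - t) :=
          mul_le_mul_of_nonneg_left h2 (h0 s)
      _ = f s * Real.exp s / Real.exp t := by rw [Real.exp_sub]; ring
      _ ≤ f t := by rwa [div_le_iff₀ (Real.exp_pos t)]
  rw [tendsto_order]
  constructor
  · intro b hb'
    have hcont : Tendsto (fun δ : ℝ => (A - δ) * Real.exp (-(2 * δ))) (𝓝[>] 0) (𝓝 A) := by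
      have : Continuous (fun δ : ℝ => (A - δ) * Real.exp (-(2 * δ))) := by fun_prop
      have := this.tendsto 0
      simp only [sub_zero, mul_zero, neg_zero, Real.exp_zero, mul_one] at this
      exact this.mono_left nhdsWithin_le_nhds
    obtain ⟨δ, hδ1, hδ⟩ := ((hcont.eventually (lt_mem_nhds hb')).and self_mem_nhdsWithin).exists
    have hδ : 0 < δ := hδ
    have h1 := one_sided (fun t => -(f t - A)) (by fun_prop) (M + |A|)
      (fun t => by rw [abs_neg]; exact hb t) hJ' hδ hδ
    have h2 := (tendsto_atTop_add_const_right atTop (-δ) tendsto_id).eventually h1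
    filter_upwards [h2] with T hT
    have h3 := hT (A - f T * Real.exp (2 * δ)) (fun t ht => by
      have h4 := hslow t T δ (by have := ht.2; simp only [id] at this; linarith)
        (by have := ht.1; simp only [id] at this; linarith)
      have h5 : f t ≤ f T * Real.exp (2 * δ) := by
        rw [Real.exp_neg, ← div_eq_mul_inv, div_le_iff₀ (Real.exp_pos _)] at h4
        exact h4
      linarith)
    have h6 : (A - δ) * Real.exp (-(2 * δ)) ≤ f T := by
      rw [Real.exp_neg, ← div_eq_mul_inv, div_le_iff₀ (Real.exp_pos _)]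
      linarith
    linarith
  · intro b hb'
    have hcont : Tendsto (fun δ : ℝ => (A + δ) * Real.exp (2 * δ)) (𝓝[>] 0) (𝓝 A) := by
      have : Continuous (fun δ : ℝ => (A + δ) * Real.exp (2 * δ)) := by fun_prop
      have := this.tendsto 0
      simp only [add_zero, mul_zero, Real.exp_zero, mul_one] at this
      exact this.mono_left nhdsWithin_le_nhds
    obtain ⟨δ, hδ1, hδ⟩ := ((hcont.eventually (gt_mem_nhds hb')).and self_mem_nhdsWithin).exists
    have hδ : 0 < δ := hδ
    have h1 := one_sided (fun t => f t - A) (by fun_prop) (M + |A|) hb hJ hδ hδ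
    have h2 := (tendsto_atTop_add_const_right atTop δ tendsto_id).eventually h1
    filter_upwards [h2] with T hT
    have h3 := hT (f T * Real.exp (-(2 * δ)) - A) (fun t ht => by
      have h4 := hslow T t δ (by have := ht.1; simp only [id] at this; linarith)
        (by have := ht.2; simp only [id] at this; linarith)
      linarith)
    have h6 : f T ≤ (A + δ) * Real.exp (2 * δ) := by
      rw [Real.exp_neg, ← div_eq_mul_inv, sub_le_iff_le_add, div_le_iff₀ (Real.exp_pos _)] at h3
      linarith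
    linarith

end Pool.Agent.Lib.helper57
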